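import Pool.Agent.Helper95.LN.Stmts
import Pool.Agent.Helper3.PW.En
import Pool.Agent.Helper84.PW.HA2
import Pool.Agent.Helper13.PM.HA3

/-! # Row TRE: energy of an antisymmetrised product of functions with disjoint supports -/

set_option autoImplicit false

namespace Pool.Agent.Helper80.LN

open MeasureTheory Filter Pool.Agent.Helper95.PW Pool.Agent.Helper95.LN Pool.Agent.Helper3.PW

variable {n : ℕ}

/-- the measure with density `f l ^ 2` -/
noncomputable def tm (f : Fin n → R3 → ℝ) (l : Fin n) : Measure R3 :=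
  volume.withDensity (fun y => ENNReal.ofReal (f l y ^ 2))

theorem tm_int {g : R3 → ℝ} (hg : ContDiff ℝ (⊤ : ℕ∞) g) (hc : HasCompactSupport g) :
    Integrable (fun y => g y ^ 2) := by
  have h1 : Continuous (fun y => g y ^ 2) := hg.continuous.pow 2
  apply h1.integrable_of_hasCompactSupport
  exact hc.comp_left (g := fun t : ℝ => t ^ 2) (by simp)

theorem tm_prob (f : Fin n → R3 → ℝ) (hf : ∀ l, ContDiff ℝ (⊤ : ℕ∞) (f l))
    (hc : ∀ l, HasCompactSupport (f l)) (hn : ∀ l, ∫ y, f l y ^ 2 = 1) (l : Fin n) :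
    IsProbabilityMeasure (tm f l) := by
  refine ⟨?_⟩
  rw [tm, withDensity_apply _ MeasurableSet.univ, Measure.restrict_univ,
    ← ofReal_integral_eq_lintegral_ofReal (tm_int (hf l) (hc l))
      (ae_of_all _ fun _ => sq_nonneg _), hn, ENNReal.ofReal_one]

theorem tm_pi (f : Fin n → R3 → ℝ) (hf : ∀ l, ContDiff ℝ (⊤ : ℕ∞) (f l))
    (hc : ∀ l, HasCompactSupport (f l)) (hn : ∀ l, ∫ y, f l y ^ 2 = 1) :
    Measure.pi (tm f) = volume.withDensity (fun x : Cf n => ENNReal.ofReal (pf f x ^ 2)) := by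
  haveI : ∀ l, IsProbabilityMeasure (tm f l) := tm_prob f hf hc hn
  refine Measure.pi_eq fun s hs => ?_
  rw [withDensity_apply _ (MeasurableSet.univ_pi hs)]
  have hint := (pf_sq_int f hf hc).integrableOn (s := Set.pi Set.univ s)
  rw [← ofReal_integral_eq_lintegral_ofReal hint (ae_of_all _ fun _ => sq_nonneg _)]
  have e1 : ∫ x in Set.pi Set.univ s, pf f x ^ 2 = ∏ l, ∫ y in s l, f l y ^ 2 := by
    have e2 : (volume : Measure (Cf n)).restrict (Set.pi Set.univ s) =
        Measure.pi (fun l => (volume : Measure R3).restrict (s l)) := Measure.restrict_pi_pi _ s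
    rw [e2, ← integral_fintype_prod_eq_prod (fun l y => f l y ^ 2)]
    refine integral_congr_ae (ae_of_all _ fun x => ?_)
    simp only [pf, Finset.prod_pow]
  rw [e1, ENNReal.ofReal_prod_of_nonneg fun l _ => integral_nonneg fun _ => sq_nonneg _]
  refine Finset.prod_congr rfl fun l _ => ?_
  rw [tm, withDensity_apply _ (hs l)]
  exact ofReal_integral_eq_lintegral_ofReal (tm_int (hf l) (hc l)).integrableOn
    (ae_of_all _ fun _ => sq_nonneg _)

/-- integral against the density -/
theorem tm_wd {α : Type*} [MeasurableSpace α] {μ : Measure α} (p : α → ℝ) (hp : Measurable p)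
    (h0 : ∀ x, 0 ≤ p x) (F : α → ℝ) :
    ∫ x, F x ∂(μ.withDensity fun x => ENNReal.ofReal (p x)) = ∫ x, F x * p x ∂μ := by
  rw [integral_withDensity_eq_integral_toReal_smul hp.ennreal_ofReal
    (ae_of_all _ fun x => ENNReal.ofReal_lt_top)]
  refine integral_congr_ae (ae_of_all _ fun x => ?_)
  simp only [smul_eq_mul]
  rw [ENNReal.toReal_ofReal (h0 x), mul_comm]

theorem tm_wdi {α : Type*} [MeasurableSpace α] {μ : Measure α} (p : α → ℝ) (hp : Measurable p)
    (h0 : ∀ x, 0 ≤ p x) (F : α → ℝ) (hF : Integrable (fun x => F x * p x) μ) :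
    Integrable F (μ.withDensity fun x => ENNReal.ofReal (p x)) := by
  rw [integrable_withDensity_iff_integrable_smul' hp.ennreal_ofReal
    (ae_of_all _ fun x => ENNReal.ofReal_lt_top)]
  refine hF.congr (ae_of_all _ fun x => ?_)
  simp only [smul_eq_mul]
  rw [ENNReal.toReal_ofReal (h0 x), mul_comm]

theorem pf_meas (f : Fin n → R3 → ℝ) (hf : ∀ l, ContDiff ℝ (⊤ : ℕ∞) (f l)) :
    Measurable (fun x : Cf n => pf f x ^ 2) :=
  ((pf_contDiff f hf).continuous.pow 2).measurable

/-- a one particle function -/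
theorem tm_one (f : Fin n → R3 → ℝ) (hf : ∀ l, ContDiff ℝ (⊤ : ℕ∞) (f l))
    (hc : ∀ l, HasCompactSupport (f l)) (hn : ∀ l, ∫ y, f l y ^ 2 = 1) (k : Fin n)
    (h : R3 → ℝ) (hh : Measurable h) :
    ∫ x : Cf n, h (x k) * pf f x ^ 2 = ∫ y, h y * f k y ^ 2 := by
  haveI : ∀ l, IsProbabilityMeasure (tm f l) := tm_prob f hf hc hn
  have e1 := tm_wd (μ := (volume : Measure (Cf n))) (fun x => pf f x ^ 2) (pf_meas f hf)
    (fun _ => sq_nonneg _) (fun x => h (x k))
  have e2 := tm_wd (μ := (volume : Measure R3)) (fun y => f k y ^ 2)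
    ((hf k).continuous.pow 2).measurable (fun _ => sq_nonneg _) h
  rw [← e1, ← e2, ← tm_pi f hf hc hn]
  change ∫ x, h (x k) ∂(Measure.pi (tm f)) = ∫ y, h y ∂(tm f k)
  have e3 : (Measure.pi (tm f)).map (fun x => x k) = tm f k :=
    (measurePreserving_eval (tm f) k).map_eq
  rw [← e3, integral_map (measurable_pi_apply k).aemeasurable hh.aestronglyMeasurable]

theorem tm_pair (f : Fin n → R3 → ℝ) (hf : ∀ l, ContDiff ℝ (⊤ : ℕ∞) (f l))
    (hc : ∀ l, HasCompactSupport (f l)) (hn : ∀ l, ∫ y, f l y ^ 2 = 1) (k l : Fin n)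
    (hkl : k ≠ l) :
    (Measure.pi (tm f)).map (fun x : Cf n => (x k, x l)) = (tm f k).prod (tm f l) := by
  haveI : ∀ l, IsProbabilityMeasure (tm f l) := tm_prob f hf hc hn
  have hi : ProbabilityTheory.iIndepFun (fun (i : Fin n) (x : Cf n) => x i)
      (Measure.pi (tm f)) :=
    ProbabilityTheory.iIndepFun_pi (X := fun (_ : Fin n) (y : R3) => y)
      (fun _ => aemeasurable_id)
  have h2 := hi.indepFun hkl
  rw [ProbabilityTheory.indepFun_iff_map_prod_eq_prod_map_map
    (measurable_pi_apply k).aemeasurable (measurable_pi_apply l).aemeasurable] at h2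
  have e3 : ∀ k, (Measure.pi (tm f)).map (fun x : Cf n => x k) = tm f k := fun k =>
    (measurePreserving_eval (tm f) k).map_eq
  rw [h2, e3, e3]

/-- a two particle function -/
theorem tm_two (f : Fin n → R3 → ℝ) (hf : ∀ l, ContDiff ℝ (⊤ : ℕ∞) (f l))
    (hc : ∀ l, HasCompactSupport (f l)) (hn : ∀ l, ∫ y, f l y ^ 2 = 1) (k l : Fin n)
    (hkl : k ≠ l) (h : R3 × R3 → ℝ) (hh : Measurable h)
    (hI : Integrable (fun x : Cf n => h (x k, x l) * pf f x ^ 2)) :
    ∫ x : Cf n, h (x k, x l) * pf f x ^ 2 = ∫ x, ∫ y, f k x ^ 2 * f l y ^ 2 * h (x, y) := by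
  haveI : ∀ l, IsProbabilityMeasure (tm f l) := tm_prob f hf hc hn
  have e1 := tm_wd (μ := (volume : Measure (Cf n))) (fun x => pf f x ^ 2) (pf_meas f hf)
    (fun _ => sq_nonneg _) (fun x => h (x k, x l))
  have i1 := tm_wdi (μ := (volume : Measure (Cf n))) (fun x => pf f x ^ 2) (pf_meas f hf)
    (fun _ => sq_nonneg _) (fun x => h (x k, x l)) hI
  rw [← tm_pi f hf hc hn] at i1 e1
  rw [← e1]
  have hm : Measurable (fun x : Cf n => (x k, x l)) :=
    (measurable_pi_apply k).prodMk (measurable_pi_apply l)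
  have e3 : ∫ x, h (x k, x l) ∂(Measure.pi (tm f)) =
      ∫ z, h z ∂((Measure.pi (tm f)).map (fun x : Cf n => (x k, x l))) :=
    (integral_map hm.aemeasurable hh.aestronglyMeasurable).symm
  have i2 : Integrable h ((Measure.pi (tm f)).map (fun x : Cf n => (x k, x l))) :=
    (integrable_map_measure hh.aestronglyMeasurable hm.aemeasurable).2 i1
  rw [tm_pair f hf hc hn k l hkl] at e3 i2
  rw [e3, integral_prod _ i2]
  have e4 : ∀ (j : Fin n) (F : R3 → ℝ), ∫ y, F y ∂(tm f j) = ∫ y, F y * f j y ^ 2 := fun j F =>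
    tm_wd (μ := (volume : Measure R3)) (fun y => f j y ^ 2)
      ((hf j).continuous.pow 2).measurable (fun _ => sq_nonneg _) F
  rw [e4]
  refine integral_congr_ae (ae_of_all _ fun x => ?_)
  simp only
  rw [e4, ← integral_mul_const]
  refine integral_congr_ae (ae_of_all _ fun y => ?_)
  simp only
  ring

theorem tm_cong (σ : Equiv.Perm (Fin n)) (x : Cf n) :
    (MeasurableEquiv.piCongrLeft (fun _ : Fin n => R3) σ.symm) x = fun i => x (σ i) := by
  funext i
  have h := Equiv.piCongrLeft_apply_apply (P := fun _ : Fin n => R3) (e := σ.symm) x (σ i)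
  rw [MeasurableEquiv.coe_piCongrLeft]
  simpa using h

/-- permutation of the particles -/
theorem tm_perm (σ : Equiv.Perm (Fin n)) (F : Cf n → ℝ) :
    ∫ x : Cf n, F (fun i => x (σ i)) = ∫ x, F x := by
  have h := volume_measurePreserving_piCongrLeft (fun _ : Fin n => R3) σ.symm
  rw [← h.integral_comp' F]
  refine integral_congr_ae (ae_of_all _ fun x => ?_)
  simp only
  rw [tm_cong]

theorem tm_permi (σ : Equiv.Perm (Fin n)) (F : Cf n → ℝ) (hF : Integrable F) :
    Integrable (fun x : Cf n => F (fun i => x (σ i))) := by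
  have h := volume_measurePreserving_piCongrLeft (fun _ : Fin n => R3) σ.symm
  have h2 := (h.integrable_comp_emb (MeasurableEquiv.measurableEmbedding _)).2 hF
  refine h2.congr (ae_of_all _ fun x => ?_)
  simp only [Function.comp_apply]
  rw [tm_cong]

/-- symmetric weights -/
theorem tm_sym (f : Fin n → R3 → ℝ)
    (hd : ∀ i j y, y ∈ tsupport (f i) → y ∈ tsupport (f j) → i = j) (w : Cf n → ℝ)
    (hw : ∀ (σ : Equiv.Perm (Fin n)) (x : Cf n), w (fun i => x (σ i)) = w x)
    (hI : Integrable (fun x : Cf n => w x * pf f x ^ 2)) :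
    ∫ x, w x * ps f x ^ 2 =
      (Fintype.card (Equiv.Perm (Fin n)) : ℝ) * ∫ x, w x * pf f x ^ 2 := by
  have e0 : ∀ (σ : Equiv.Perm (Fin n)) (x : Cf n),
      w x * pf (fun l => f (σ⁻¹ l)) x ^ 2 =
        (fun z : Cf n => w z * pf f z ^ 2) (fun i => x (σ i)) := by
    intro σ x
    simp only
    rw [hw]
    congr 2
    unfold pf
    rw [← Equiv.prod_comp σ (fun l => f (σ⁻¹ l) (x l))]
    refine Finset.prod_congr rfl fun l _ => ?_
    simp
  simp_rw [ps_sq f hd, Finset.mul_sum, e0]
  rw [integral_finsetSum _ fun σ _ => tm_permi σ _ hI]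
  simp_rw [tm_perm _ (fun z : Cf n => w z * pf f z ^ 2)]
  rw [Finset.sum_const, nsmul_eq_mul]
  rfl

theorem tm_dom (r : Cf n → ℝ) (hr : Continuous r) (hr0 : ∀ x, 0 ≤ r x) (v : Cf n → ℝ)
    (hv : ContDiff ℝ (⊤ : ℕ∞) v) (hcv : HasCompactSupport v)
    (hI : Integrable (fun x => v x ^ 2 / r x ^ 2)) :
    Integrable (fun x => 1 / r x * v x ^ 2) := by
  have h2 : Integrable (fun x => v x ^ 2) := by
    have h1 : Continuous (fun x => v x ^ 2) := hv.continuous.pow 2
    apply h1.integrable_of_hasCompactSupport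
    exact hcv.comp_left (g := fun t : ℝ => t ^ 2) (by simp)
  refine (hI.add h2).mono' ?_ (ae_of_all _ fun x => ?_)
  · exact ((measurable_const.div hr.measurable).mul
      (hv.continuous.pow 2).measurable).aestronglyMeasurable
  · rw [Real.norm_eq_abs,
      abs_of_nonneg (mul_nonneg (div_nonneg zero_le_one (hr0 x)) (sq_nonneg _))]
    simp only [Pi.add_apply]
    have h3 : 1 / r x ≤ 1 / r x ^ 2 + 1 := by
      have h4 : 1 / r x ^ 2 = (1 / r x) ^ 2 := by rw [div_pow, one_pow]
      rw [h4]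
      nlinarith [sq_nonneg (1 / r x - 1 / 2)]
    calc 1 / r x * v x ^ 2 ≤ (1 / r x ^ 2 + 1) * v x ^ 2 :=
          mul_le_mul_of_nonneg_right h3 (sq_nonneg _)
      _ = v x ^ 2 / r x ^ 2 + v x ^ 2 := by ring

theorem TRE : ST_TRE := by
  classical
  intro n f hf hc hd hn
  set N : ℝ := (Fintype.card (Equiv.Perm (Fin n)) : ℝ) with hN
  have hNpos : 0 < N := by
    rw [hN]
    exact_mod_cast Fintype.card_pos
  have hsq : Helper95.PW.sq (wv f) = N := by rw [sq_wv, int_ps_sq f hf hc hd hn]
  have hpf := pf_contDiff f hf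
  have hpc := pf_compact f hc
  have ipair : ∀ k l : Fin n, k ≠ l →
      Integrable (fun x : Cf n => 1 / nr (x k - x l) * pf f x ^ 2) := fun k l hkl =>
    tm_dom (fun x : Cf n => nr (x k - x l))
      (nr_cont.comp ((continuous_apply k).sub (continuous_apply l))) (fun _ => nr_nonneg _) _
      hpf hpc (Helper95.PW.st_HA2 n k l _ hkl hpf hpc).1
  have ione : ∀ (k : Fin n) (a : R3),
      Integrable (fun x : Cf n => 1 / nr (x k - a) * pf f x ^ 2) := fun k a =>
    tm_dom (fun x : Cf n => nr (x k - a))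
      (nr_cont.comp ((continuous_apply k).sub continuous_const)) (fun _ => nr_nonneg _) _
      hpf hpc (Helper95.PW.st_HA3 n k a _ hpf hpc).1
  refine ⟨wv f, wv_Sm f hf hc, wv_Anti f, by rw [hsq]; exact hNpos, ?_, ?_, ?_⟩
  · rw [kin_wv, hsq]
    calc ∑ k, ∑ i, ∫ x, dv k i (ps f) x ^ 2
        = ∑ k, ∑ i, ∑ σ : Equiv.Perm (Fin n), ∫ y, pd i (f (σ⁻¹ k)) y ^ 2 := by
          apply Finset.sum_congr rfl
          intro k _
          apply Finset.sum_congr rfl
          intro i _
          exact int_dv_ps f hf hc hd hn k i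
      _ = ∑ k, ∑ σ : Equiv.Perm (Fin n), ∑ i, ∫ y, pd i (f (σ⁻¹ k)) y ^ 2 := by
          apply Finset.sum_congr rfl
          intro k _
          exact Finset.sum_comm
      _ = ∑ σ : Equiv.Perm (Fin n), ∑ k, ∑ i, ∫ y, pd i (f (σ⁻¹ k)) y ^ 2 := Finset.sum_comm
      _ = ∑ σ : Equiv.Perm (Fin n), ∑ l, ∑ i, ∫ y, pd i (f l) y ^ 2 := by
          apply Finset.sum_congr rfl
          intro σ _
          exact Equiv.sum_comp σ⁻¹ (fun l => ∑ i, ∫ y, pd i (f l) y ^ 2)
      _ = N * ∑ l, ∑ i, ∫ y, pd i (f l) y ^ 2 := by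
          rw [Finset.sum_const, nsmul_eq_mul, hN]
          rfl
  · have e : ∀ x : Cf n, rep x * pf f x ^ 2 =
        ∑ k, ∑ l, (if k < l then 1 / nr (x k - x l) * pf f x ^ 2 else 0) := by
      intro x
      unfold rep
      rw [Finset.sum_mul]
      refine Finset.sum_congr rfl fun k _ => ?_
      rw [Finset.sum_mul]
      refine Finset.sum_congr rfl fun l _ => ?_
      rw [ite_mul, zero_mul]
    have i1 : ∀ k l : Fin n,
        Integrable (fun x : Cf n => if k < l then 1 / nr (x k - x l) * pf f x ^ 2 else 0) := by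
      intro k l
      by_cases hkl : k < l
      · simp only [if_pos hkl]
        exact ipair k l hkl.ne
      · simp only [if_neg hkl]
        exact integrable_zero _ _ _
    have irep : Integrable (fun x : Cf n => rep x * pf f x ^ 2) := by
      simp_rw [e]
      exact integrable_finsetSum _ fun k _ => integrable_finsetSum _ fun l _ => i1 k l
    rw [pair_wv, hsq, tm_sym f hd rep (fun σ x => rep_perm σ x) irep]
    congr 1
    simp_rw [e]
    rw [integral_finsetSum _ fun k _ => integrable_finsetSum _ fun l _ => i1 k l]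
    refine Finset.sum_congr rfl fun k _ => ?_
    rw [integral_finsetSum _ fun l _ => i1 k l]
    refine Finset.sum_congr rfl fun l _ => ?_
    by_cases hkl : k < l
    · simp only [if_pos hkl]
      have hm : Measurable (fun z : R3 × R3 => 1 / nr (z.1 - z.2)) :=
        measurable_const.div (nr_cont.measurable.comp (measurable_fst.sub measurable_snd))
      have h2 := tm_two f hf hc hn k l hkl.ne (fun z => 1 / nr (z.1 - z.2)) hm (ipair k l hkl.ne)
      simp only [mul_one_div] at h2
      simp only [← h2]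
    · simp only [if_neg hkl, integral_zero]
  · intro M X Z
    have h1 : one (pot X Z) (wv f) = ∫ x, (∑ k, pot X Z (x k)) * ps f x ^ 2 := by
      unfold one
      exact sum_wv f (fun u => ∫ x, (∑ k, pot X Z (x k)) * u x ^ 2) (by simp)
    have e : ∀ x : Cf n, (∑ k, pot X Z (x k)) * pf f x ^ 2 =
        ∑ k, ∑ j, Z j * (1 / nr (x k - X j) * pf f x ^ 2) := by
      intro x
      rw [Finset.sum_mul]
      refine Finset.sum_congr rfl fun k _ => ?_
      unfold pot
      rw [Finset.sum_mul]
      refine Finset.sum_congr rfl fun j _ => ?_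
      ring
    have i1 : ∀ (k : Fin n) (j : Fin M),
        Integrable (fun x : Cf n => Z j * (1 / nr (x k - X j) * pf f x ^ 2)) := fun k j =>
      (ione k (X j)).const_mul _
    have ipot : Integrable (fun x : Cf n => (∑ k, pot X Z (x k)) * pf f x ^ 2) := by
      simp_rw [e]
      exact integrable_finsetSum _ fun k _ => integrable_finsetSum _ fun j _ => i1 k j
    rw [h1, hsq, tm_sym f hd (fun x => ∑ k, pot X Z (x k))
      (fun σ x => Equiv.sum_comp σ (fun k => pot X Z (x k))) ipot]
    congr 1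
    simp_rw [e]
    rw [integral_finsetSum _ fun k _ => integrable_finsetSum _ fun j _ => i1 k j]
    refine Finset.sum_congr rfl fun k _ => ?_
    rw [integral_finsetSum _ fun j _ => i1 k j]
    refine Finset.sum_congr rfl fun j _ => ?_
    rw [integral_const_mul]
    congr 1
    have hm : Measurable (fun y : R3 => 1 / nr (y - X j)) :=
      measurable_const.div (nr_cont.measurable.comp (measurable_id.sub measurable_const))
    rw [tm_one f hf hc hn k (fun y => 1 / nr (y - X j)) hm]
    refine integral_congr_ae (ae_of_all _ fun y => ?_)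
    simp only
    ring

end Pool.Agent.Helper80.LN
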